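import Pool.Agent.N105.LT.Defs

/-! The pointwise inequality in an eigenbasis (LT/DIA). -/

set_option autoImplicit false

open MeasureTheory Set Filter Topology Real
open scoped Matrix

namespace Pool.Agent.N348.LG.Dia
open LTd Pool.Agent.N105.LT

theorem cube_nonneg {n : ℕ} (X : Mat n) (hX : PSD X) (i : Fin n) : 0 ≤ (X * X * X) i i := by
  have h := hX.2 (fun k => X k i)
  have e : ∑ k, ∑ l, X k i * X l i * X k l = (X * X * X) i i := by
    rw [Matrix.mul_apply, Finset.sum_comm]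
    refine Finset.sum_congr rfl fun l _ => ?_
    rw [Matrix.mul_apply, Finset.sum_mul]
    refine Finset.sum_congr rfl fun k _ => ?_
    rw [hX.1 i k]
    ring
  rw [← e]
  exact h

theorem ph_bound (θ : ℝ) (h0 : 0 < θ) (h1 : θ < 1) :
    ∃ M : ℝ, 0 ≤ M ∧ ∀ s ∈ Icc (-(1 / 2) : ℝ) (1 / 2), |ph θ s| ≤ M := by
  have hc : ContinuousOn (ph θ) (Icc (-(1 / 2) : ℝ) (1 / 2)) := by
    unfold ph ath
    have hpos : ∀ s ∈ Icc (-(1 / 2) : ℝ) (1 / 2), 0 < 1 + 2 * θ * s ∧ 0 < 1 - 2 * θ * s := by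
      intro s hs
      constructor <;> nlinarith [hs.1, hs.2]
    refine ContinuousOn.neg (ContinuousOn.mul continuousOn_const (ContinuousOn.div_const ?_ _))
    refine ContinuousOn.log (ContinuousOn.div (by fun_prop) (by fun_prop) ?_) ?_
    · intro s hs
      exact (hpos s hs).2.ne'
    · intro s hs
      exact (div_pos (hpos s hs).1 (hpos s hs).2).ne'
  obtain ⟨M, hM⟩ := (isCompact_Icc).exists_bound_of_continuousOn hc
  exact ⟨max M 0, le_max_right _ _, fun s hs => by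
    have := hM s hs
    rw [Real.norm_eq_abs] at this
    exact this.trans (le_max_left _ _)⟩

theorem dia
    (hki : ∀ {n : ℕ} (X : Mat n), PSD X → ∀ a : Fin n → ℝ,
      4 * ∑ i, a i ^ 2 * (X * X * X) i i + π ^ 2 / 3 * (X * X * X).trace ≤
      4 * ∑ i, ∑ j, kk (a i - a j) * (cosh (a i) * cosh (a j)) * (X i j * (X * X) i j))
    (herr : ∀ {n : ℕ} (X : Mat n), PSD X → ∀ i j : Fin n,
      |X i j * (X * X) i j| ≤ n ^ 3 * (X * X * X).trace ∧ 0 ≤ (X * X) i i ∧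
      (X * X * X) i i ≤ (X * X * X).trace)
    (n : ℕ) (θ : ℝ) (h0 : 0 < θ) (h1 : θ < 1) (δ : ℝ) (hδ : 0 < δ) :
    ∃ ε : ℝ, 0 < ε ∧ ∀ (K : ℕ) (c : ℕ → ℝ),
      (∀ s ∈ Icc (-(1 / 2) : ℝ) (1 / 2), ∀ r ∈ Icc (-(1 / 2) : ℝ) (1 / 2),
        |∑ a ∈ Finset.range K, c a * s ^ a - ph θ s| ≤ ε ∧
        |∑ a ∈ Finset.range K, c a * gs a s r + dd θ s r| ≤ ε) →
      ∀ (e : Fin n → ℝ), (∀ i, e i ∈ Icc (-(1 / 2) : ℝ) (1 / 2)) → ∀ X : Mat n, PSD X →
        ∑ i, ∑ j, (∑ a ∈ Finset.range K, c a * gs a (e i) (e j)) * (X i j * (X * X) i j) +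
          ∑ i, (∑ a ∈ Finset.range K, c a * e i ^ a) ^ 2 * (X * X * X) i i +
          (θ ^ 2 * (π ^ 2 / 3) - δ) * (X * X * X).trace ≤ 0 := by
  obtain ⟨M, hM0, hM⟩ := ph_bound θ h0 h1
  have hC : (0 : ℝ) < (n : ℝ) ^ 5 + 2 * M + 1 := by positivity
  refine ⟨min 1 (δ / ((n : ℝ) ^ 5 + 2 * M + 1)), lt_min one_pos (div_pos hδ hC), ?_⟩
  set ε := min 1 (δ / ((n : ℝ) ^ 5 + 2 * M + 1)) with hε
  have hε0 : 0 < ε := lt_min one_pos (div_pos hδ hC)
  have hε1 : ε ≤ 1 := min_le_left _ _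
  have hεC : ε * ((n : ℝ) ^ 5 + 2 * M + 1) ≤ δ := by
    calc ε * ((n : ℝ) ^ 5 + 2 * M + 1) ≤ δ / ((n : ℝ) ^ 5 + 2 * M + 1) * ((n : ℝ) ^ 5 + 2 * M + 1) :=
          mul_le_mul_of_nonneg_right (min_le_right _ _) hC.le
      _ = δ := div_mul_cancel₀ _ hC.ne'
  intro K c hc e he X hX
  set T := (X * X * X).trace with hT
  have hTe : T = ∑ i, (X * X * X) i i := rfl
  have hT0 : 0 ≤ T := by
    rw [hTe]
    exact Finset.sum_nonneg fun i _ => cube_nonneg X hX i
  -- the first sum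
  have hA : ∑ i, ∑ j, (∑ a ∈ Finset.range K, c a * gs a (e i) (e j)) * (X i j * (X * X) i j) ≤
      -(∑ i, ∑ j, dd θ (e i) (e j) * (X i j * (X * X) i j)) + ε * ((n : ℝ) ^ 5 * T) := by
    have h2 : ∑ i : Fin n, ∑ j : Fin n, ε * ((n : ℝ) ^ 3 * T) = ε * ((n : ℝ) ^ 5 * T) := by
      simp only [Finset.sum_const, Finset.card_univ, Fintype.card_fin, nsmul_eq_mul]
      ring
    rw [← h2, ← Finset.sum_neg_distrib, ← Finset.sum_add_distrib]
    refine Finset.sum_le_sum fun i _ => ?_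
    rw [← Finset.sum_neg_distrib, ← Finset.sum_add_distrib]
    refine Finset.sum_le_sum fun j _ => ?_
    have h3 := (hc (e i) (he i) (e j) (he j)).2
    have h4 := (herr X hX i j).1
    have h5 : (∑ a ∈ Finset.range K, c a * gs a (e i) (e j) + dd θ (e i) (e j)) *
        (X i j * (X * X) i j) ≤ ε * ((n : ℝ) ^ 3 * T) := by
      refine (le_abs_self _).trans ?_
      rw [abs_mul]
      exact mul_le_mul h3 h4 (abs_nonneg _) hε0.le
    linarith
  -- the second sum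
  have hB : ∑ i, (∑ a ∈ Finset.range K, c a * e i ^ a) ^ 2 * (X * X * X) i i ≤
      ∑ i, ph θ (e i) ^ 2 * (X * X * X) i i + ε * (2 * M + 1) * T := by
    rw [hTe, Finset.mul_sum, ← Finset.sum_add_distrib]
    refine Finset.sum_le_sum fun i _ => ?_
    have h3 := (hc (e i) (he i) (e i) (he i)).1
    have h4 := hM (e i) (he i)
    have h5 := cube_nonneg X hX i
    rw [← add_mul]
    refine mul_le_mul_of_nonneg_right ?_ h5
    set p := ∑ a ∈ Finset.range K, c a * e i ^ a with hp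
    set q := ph θ (e i) with hq
    have h6 : p ^ 2 = q ^ 2 + (p - q) * ((p - q) + 2 * q) := by ring
    have h7 : (p - q) * ((p - q) + 2 * q) ≤ ε * (2 * M + 1) := by
      refine (le_abs_self _).trans ?_
      rw [abs_mul]
      refine mul_le_mul h3 ?_ (abs_nonneg _) hε0.le
      calc |p - q + 2 * q| ≤ |p - q| + |2 * q| := abs_add_le _ _
        _ = |p - q| + 2 * |q| := by rw [abs_mul]; norm_num
        _ ≤ 2 * M + 1 := by linarith
    linarith
  -- the kernel inequality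
  have hk := hki X hX (fun i => ath (2 * θ * e i))
  have hF : ∑ i, ph θ (e i) ^ 2 * (X * X * X) i i + θ ^ 2 * (π ^ 2 / 3) * T ≤
      ∑ i, ∑ j, dd θ (e i) (e j) * (X i j * (X * X) i j) := by
    have e1 : ∑ i, ph θ (e i) ^ 2 * (X * X * X) i i =
        θ ^ 2 * (4 * ∑ i, ath (2 * θ * e i) ^ 2 * (X * X * X) i i) := by
      rw [Finset.mul_sum, Finset.mul_sum]
      refine Finset.sum_congr rfl fun i _ => ?_
      unfold ph
      ring
    have e2 : ∑ i, ∑ j, dd θ (e i) (e j) * (X i j * (X * X) i j) =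
        θ ^ 2 * (4 * ∑ i, ∑ j, kk (ath (2 * θ * e i) - ath (2 * θ * e j)) *
          (cosh (ath (2 * θ * e i)) * cosh (ath (2 * θ * e j))) * (X i j * (X * X) i j)) := by
      rw [Finset.mul_sum, Finset.mul_sum]
      refine Finset.sum_congr rfl fun i _ => ?_
      rw [Finset.mul_sum, Finset.mul_sum]
      refine Finset.sum_congr rfl fun j _ => ?_
      unfold dd
      ring
    rw [e1, e2]
    have := mul_le_mul_of_nonneg_left hk (sq_nonneg θ)
    linarith
  have hfin : ε * ((n : ℝ) ^ 5 * T) + ε * (2 * M + 1) * T ≤ δ * T := by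
    have := mul_le_mul_of_nonneg_right hεC hT0
    linarith
  linarith

end Pool.Agent.N348.LG.Dia
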