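import Pool.Agent.N145.PL.Stm

set_option autoImplicit false
set_option linter.overlappingInstances false
set_option linter.unusedSectionVars false

/-!
# LG/STR: subvarieties of varieties finitely dominated by products of curves
-/

open Polynomial FF IntermediateField

namespace Pool.Agent.N348.LG.STR

open Pool.Agent.W619.PQ (alg_adjoin)
open Pool.Agent.N145.PL

theorem const_of_alg {K : Type*} [Field K] [Algebra ℂ K] {z : K} (h : IsAlgebraic ℂ z) :
    ∃ c : ℂ, z = algebraMap ℂ K c := by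
  have h1 := IsAlgClosed.degree_eq_one_of_irreducible ℂ (minpoly.irreducible h.isIntegral)
  obtain ⟨c, hc⟩ := minpoly.mem_range_of_degree_eq_one ℂ z h1
  exact ⟨c, hc.symm⟩

theorem ext_frac {R F K : Type*} [CommRing R] [Field F] [Field K] [Algebra ℂ R] [Algebra ℂ F]
    [Algebra ℂ K] (ι : R →ₐ[ℂ] F) (hι : Function.Injective ι)
    (hs : ∀ z : F, ∃ a b, z = ι a / ι b) (g : R →ₐ[ℂ] K) (hg : Function.Injective g) :
    ∃ ε : F →ₐ[ℂ] K, ∀ x, ε (ι x) = g x := by
  let _ : Algebra R F := ι.toRingHom.toAlgebra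
  have hd : IsDomain R := hι.isDomain ι.toRingHom
  have h1 : FaithfulSMul R F := (faithfulSMul_iff_algebraMap_injective R F).2 hι
  have h2 : IsScalarTower ℂ R F := IsScalarTower.of_algebraMap_eq fun c => (ι.commutes c).symm
  have h3 : IsFractionRing R F := IsFractionRing.of_field R F fun z => by
    obtain ⟨a, b, hz⟩ := hs z
    exact ⟨a, b, hz⟩
  exact ⟨IsFractionRing.liftAlgHom (g := g) hg, fun x => IsFractionRing.lift_algebraMap hg x⟩

theorem const_of_ker {K K' : Type*} [Field K] [Field K'] [Algebra ℂ K] [Algebra ℂ K']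
    (F : IntermediateField ℂ K) [IsFF ℂ F] (R : Subalgebra ℂ K) (hRF : ∀ z ∈ R, z ∈ F)
    (g : R →ₐ[ℂ] K') (hg : ¬ Function.Injective g) (x : R) : ∃ c : ℂ, g x = algebraMap ℂ K' c := by
  obtain ⟨y, hy, hy0⟩ : ∃ y, g y = 0 ∧ y ≠ 0 := by
    by_contra hcon
    push Not at hcon
    exact hg ((injective_iff_map_eq_zero g).2 hcon)
  by_cases hx : IsAlgebraic ℂ (x : K)
  · obtain ⟨c, hc⟩ := const_of_alg hx
    refine ⟨c, ?_⟩
    have h1 : x = algebraMap ℂ R c := Subtype.ext hc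
    rw [h1, AlgHom.commutes]
  · obtain ⟨x', hx'⟩ : ∃ x' : F, (x' : K) = x := ⟨⟨x, hRF _ x.2⟩, rfl⟩
    obtain ⟨y', hy'⟩ : ∃ y' : F, (y' : K) = y := ⟨⟨y, hRF _ y.2⟩, rfl⟩
    have htx : Transcendental ℂ x' := fun h => hx (by rw [← hx']; exact h.algHom F.val)
    have hbas := IsFF.basis htx
    have halg : Algebra.IsAlgebraic (Algebra.adjoin ℂ (Set.range fun _ : Unit => x')) F :=
      hbas.isAlgebraic
    have hy0' : y' ≠ 0 := fun h => hy0 (Subtype.ext (by rw [← hy', h]; rfl))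
    obtain ⟨q, hq0, hq⟩ := (halg.isAlgebraic y').exists_nonzero_coeff_and_aeval_eq_zero
      (mem_nonZeroDivisors_of_ne_zero hy0')
    let S : Subalgebra ℂ F := R.comap F.val
    have hTS : Algebra.adjoin ℂ (Set.range fun _ : Unit => x') ≤ S := Algebra.adjoin_le (by
      rintro _ ⟨_, rfl⟩
      change (x' : K) ∈ R
      rw [hx']
      exact x.2)
    have hyS : y' ∈ S := by
      change (y' : K) ∈ R
      rw [hy']
      exact y.2
    have hpS : ∀ p : (Algebra.adjoin ℂ (Set.range fun _ : Unit => x'))[X], aeval y' p ∈ S :=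
      fun p => by
      rw [aeval_eq_sum_range]
      refine S.sum_mem fun i _ => ?_
      rw [Algebra.smul_def]
      exact S.mul_mem (hTS (p.coeff i).2) (S.pow_mem hyS i)
    -- the constant coefficient
    have hc : ∃ c : ℂ[X], aeval x' c = ((q.coeff 0 : _) : F) := by
      have h1 : ((q.coeff 0 : _) : F) ∈ Algebra.adjoin ℂ (Set.range fun _ : Unit => x') :=
        (q.coeff 0).2
      obtain ⟨v, hv⟩ : ∃ v : F, v = ((q.coeff 0 : _) : F) := ⟨_, rfl⟩
      rw [← hv] at h1 ⊢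
      have h2 : Set.range (fun _ : Unit => x') = {x'} := by simp
      rw [h2, Algebra.adjoin_singleton_eq_range_aeval] at h1
      obtain ⟨c, hc⟩ := h1
      exact ⟨c, hc⟩
    obtain ⟨c, hc⟩ := hc
    have hc0 : c ≠ 0 := by
      rintro rfl
      rw [map_zero] at hc
      exact hq0 (Subtype.ext hc.symm)
    have h2 : aeval y' q.divX * y' + ((q.coeff 0 : _) : F) = 0 := by
      have h3 := congrArg (aeval y') (divX_mul_X_add q)
      rw [hq, map_add, map_mul, aeval_X, aeval_C] at h3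
      exact h3
    obtain ⟨w, hw⟩ : ∃ w : R, (w : K) = (aeval y' q.divX : F) := ⟨⟨_, hpS q.divX⟩, rfl⟩
    have h4 : w * y + aeval x c = 0 := by
      apply Subtype.ext
      have h5 := congrArg F.val h2
      rw [← hc, map_add, map_mul, ← aeval_algHom_apply F.val x' c, map_zero] at h5
      change (aeval y' q.divX : F) * (y' : K) + aeval (x' : K) c = 0 at h5
      rw [← hw, hy', hx'] at h5
      have h6 : ((aeval x c : R) : K) = aeval (x : K) c := (aeval_algHom_apply R.val x c).symm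
      change (w : K) * (y : K) + ((aeval x c : R) : K) = 0
      rw [h6]
      exact h5
    have h6 := congrArg g h4
    rw [map_add, map_mul, hy, mul_zero, zero_add, map_zero, ← aeval_algHom_apply] at h6
    exact const_of_alg ⟨c, hc0, h6⟩

theorem core {K : Type} [Field K] [Algebra ℂ K] {n : ℕ} (F : Fin n → IntermediateField ℂ K)
    [∀ i, IsFF ℂ (F i)] (R : Fin n → Subalgebra ℂ K)
    (hRF : ∀ i, ∀ z ∈ R i, z ∈ F i)
    (hFR : ∀ i, ∀ z ∈ F i, ∃ a ∈ R i, ∃ b ∈ R i, b ≠ 0 ∧ z = a / b)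
    (B : Subalgebra ℂ K) (hRB : ∀ i, R i ≤ B)
    (hB : ∀ z ∈ B, ∃ a ∈ ⨆ i, R i, ∃ b ∈ ⨆ i, R i, b ≠ 0 ∧ b⁻¹ ∈ B ∧ z = a / b)
    {K' : Type} [Field K'] [Algebra ℂ K'] (π : B →ₐ[ℂ] K')
    (hs : ∀ z : K', ∃ a b : B, π b ≠ 0 ∧ z = π a / π b) :
    ∃ (r : ℕ) (σ : Fin r → Fin n) (ε : ∀ i, F (σ i) →ₐ[ℂ] K'),
      Algebra.EssFiniteType ℂ K' ∧ Algebra.trdeg ℂ K' = r ∧
      Algebra.IsAlgebraic ↥(⨆ i, (ε i).fieldRange) K' ∧
      ∀ (i : Fin r) (z : K), z ∈ R (σ i) → ∀ (hF : z ∈ F (σ i)) (hb : z ∈ B),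
        π ⟨z, hb⟩ = ε i ⟨z, hF⟩ := by
  classical
  let g : ∀ i, R i →ₐ[ℂ] K' := fun i => π.comp (Subalgebra.inclusion (hRB i))
  have hg : ∀ i (z : K) (hz : z ∈ R i) (hb : z ∈ B), g i ⟨z, hz⟩ = π ⟨z, hb⟩ :=
    fun i z hz hb => rfl
  let J := {i // Function.Injective (g i)}
  have hex : ∀ i : J, ∃ ε : F i.1 →ₐ[ℂ] K', ∀ (z : K) (hz : z ∈ R i.1) (hF : z ∈ F i.1),
      ε ⟨z, hF⟩ = g i.1 ⟨z, hz⟩ := by
    rintro ⟨i, hi⟩
    let ι : R i →ₐ[ℂ] F i :=
      { toFun := fun z => ⟨z, hRF i z z.2⟩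
        map_one' := rfl
        map_mul' := fun _ _ => rfl
        map_zero' := rfl
        map_add' := fun _ _ => rfl
        commutes' := fun _ => rfl }
    obtain ⟨ε, hε⟩ := ext_frac ι (fun a b h => Subtype.ext (congrArg (fun z : F i => (z : K)) h))
      (fun z => by
        obtain ⟨a, ha, b, hb, hb0, hz⟩ := hFR i z z.2
        exact ⟨⟨a, ha⟩, ⟨b, hb⟩, Subtype.ext hz⟩) (g i) hi
    exact ⟨ε, fun z hz hF => hε ⟨z, hz⟩⟩
  choose ε hε using hex
  obtain ⟨M, hMd⟩ : ∃ M : IntermediateField ℂ K', M = ⨆ i, (ε i).fieldRange := ⟨_, rfl⟩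
  have hM : M = ⊤ := by
    let S : Subalgebra ℂ K := (M.toSubalgebra.comap π).map B.val
    have hRS : ∀ i, R i ≤ S := by
      intro i z hz
      refine ⟨⟨z, hRB i hz⟩, ?_, rfl⟩
      change π ⟨z, hRB i hz⟩ ∈ M
      rw [← hg i z hz (hRB i hz)]
      by_cases hi : Function.Injective (g i)
      · rw [← hε ⟨i, hi⟩ z hz (hRF i z hz), hMd]
        have h1 : (ε ⟨i, hi⟩).fieldRange ≤ ⨆ i, (ε i).fieldRange :=
          le_iSup (fun i => (ε i).fieldRange) ⟨i, hi⟩
        exact h1 ⟨_, rfl⟩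
      · obtain ⟨c, hc⟩ := const_of_ker (F i) (R i) (hRF i) (g i) hi ⟨z, hz⟩
        rw [hc]
        exact M.algebraMap_mem c
    have hsup : (⨆ i, R i) ≤ S := iSup_le hRS
    have hSm : ∀ z ∈ ⨆ i, R i, ∀ hb : z ∈ B, π ⟨z, hb⟩ ∈ M := by
      intro z hz hb
      obtain ⟨y, hy, hyz⟩ := hsup hz
      have h1 : y = ⟨z, hb⟩ := Subtype.ext hyz
      rw [← h1]
      exact hy
    have hsupB : (⨆ i, R i) ≤ B := iSup_le hRB
    have hBM : ∀ z : B, π z ∈ M := by
      rintro ⟨z, hz⟩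
      obtain ⟨a, ha, b, hb, hb0, hbi, rfl⟩ := hB z hz
      have h1 : (⟨a / b, hz⟩ : B) * ⟨b, hsupB hb⟩ = ⟨a, hsupB ha⟩ :=
        Subtype.ext (div_mul_cancel₀ a hb0)
      have h2 : (⟨b, hsupB hb⟩ : B) * ⟨b⁻¹, hbi⟩ = 1 := Subtype.ext (mul_inv_cancel₀ hb0)
      have h3 := congrArg π h1
      have h4 := congrArg π h2
      rw [map_mul] at h3 h4
      rw [map_one] at h4
      have h5 : π ⟨b, hsupB hb⟩ ≠ 0 := left_ne_zero_of_mul (by rw [h4]; exact one_ne_zero)
      rw [← eq_div_iff h5] at h3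
      rw [h3]
      exact M.div_mem (hSm a ha _) (hSm b hb _)
    rw [eq_top_iff]
    intro z _
    obtain ⟨a, b, hb, rfl⟩ := hs z
    exact M.div_mem (hBM a) (hBM b)
  choose x hx using fun i => IsFF.exists_transcendental (k := ℂ) (K := F i)
  let u : J → K' := fun i => ε i (x i.1)
  have halg : ∀ z : K', IsAlgebraic (adjoin ℂ (Set.range u)) z := by
    intro z
    let S : IntermediateField ℂ K' := adjoin ℂ (Set.range u)
    have hle : ⨆ i, (ε i).fieldRange ≤ (algebraicClosure S K').restrictScalars ℂ := by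
      refine iSup_le fun i => ?_
      rintro _ ⟨y, rfl⟩
      rw [mem_restrictScalars, mem_algebraicClosure_iff]
      have h1 := (IsFF.isAlgebraic (hx i.1)).isAlgebraic y
      have hle : ℂ⟮x i.1⟯ ≤ S.comap (ε i) := by
        rw [adjoin_simple_le_iff]
        exact subset_adjoin ℂ _ ⟨i, rfl⟩
      let f : ℂ⟮x i.1⟯ →+* S := ((ε i : F i.1 →+* K').comp
        (algebraMap ℂ⟮x i.1⟯ (F i.1))).codRestrict S fun y => hle y.2
      exact h1.ringHom_of_comp_eq f (ε i : F i.1 →+* K') f.injective (by ext y; rfl)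
    have hz : z ∈ ⨆ i, (ε i).fieldRange := by
      rw [← hMd, hM]
      trivial
    have := hle hz
    rwa [mem_restrictScalars, mem_algebraicClosure_iff] at this
  have halg' : Algebra.IsAlgebraic (Algebra.adjoin ℂ (Set.range u)) K' := alg_adjoin halg
  obtain ⟨t, ht, hbas⟩ := exists_isTranscendenceBasis_subset (R := ℂ) (A := K') (Set.range u)
  have htf : Finite t := ((Set.finite_range u).subset ht).to_subtype
  obtain ⟨r, ⟨e⟩⟩ := Finite.exists_equiv_fin t
  have hch : ∀ i : Fin r, ∃ j : J, u j = (e.symm i : K') := fun i => ht (e.symm i).2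
  choose τ hτ using hch
  have hbas' : IsTranscendenceBasis ℂ (fun i : Fin r => u (τ i)) :=
    (isTranscendenceBasis_equiv' e.symm (funext fun i => (hτ i).symm)).2 hbas
  refine ⟨r, fun i => (τ i).1, fun i => ε (τ i), ?_, ?_, ?_, ?_⟩
  · rw [← fg_top_iff, ← hM, hMd]
    refine fg_iSup fun i => ?_
    have h1 : Algebra.EssFiniteType ℂ (F i.1) := (inferInstance : IsFF ℂ (F i.1)).ess
    obtain ⟨s, hs⟩ := fg_top ℂ (F i.1)
    refine ⟨s.image (ε i), ?_⟩
    rw [Finset.coe_image, ← adjoin_map, hs]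
    exact (AlgHom.fieldRange_eq_map (ε i)).symm
  · rw [← hbas'.cardinalMk_eq_trdeg, Cardinal.mk_fin]
  · have h1 := hbas'.isAlgebraic_field
    refine ⟨fun z => ?_⟩
    have hle : adjoin ℂ (Set.range fun i : Fin r => u (τ i)) ≤
        ⨆ i : Fin r, (ε (τ i)).fieldRange := by
      rw [adjoin_le_iff]
      rintro _ ⟨i, rfl⟩
      have h2 : (ε (τ i)).fieldRange ≤ ⨆ i : Fin r, (ε (τ i)).fieldRange :=
        le_iSup (fun i : Fin r => (ε (τ i)).fieldRange) i
      exact h2 ⟨_, rfl⟩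
    exact (h1.isAlgebraic z).ringHom_of_comp_eq (inclusion hle : _ →+* _) (RingHom.id K')
      (inclusion hle).injective (by ext y; rfl)
  · intro i z hz hF hb
    exact (hε (τ i) z hz hF).symm

set_option linter.dupNamespace false in
theorem STR (hDEG : S_DEG) : S_LANG := by
  intro K _ _ n F _ L _ _ _ _ _ R hRF hFR B hRB hB A hA hAB hint p hp
  -- the map from `A` to `B`
  let φ : A →ₐ[ℂ] B :=
    { toFun := fun a => ⟨algebraMap L K a, hAB a a.2⟩
      map_one' := Subtype.ext (map_one _)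
      map_mul' := fun a b => Subtype.ext (map_mul (algebraMap L K) (a : L) (b : L))
      map_zero' := Subtype.ext (map_zero _)
      map_add' := fun a b => Subtype.ext (map_add (algebraMap L K) (a : L) (b : L))
      commutes' := fun c => Subtype.ext (IsScalarTower.algebraMap_apply ℂ L K c).symm }
  have hφi : Function.Injective φ := fun a b h => Subtype.ext
    ((algebraMap L K).injective (congrArg (fun z : B => (z : K)) h))
  have hφint : φ.toRingHom.IsIntegral := by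
    intro b
    obtain ⟨f, hf, hfb⟩ := hint b b.2
    refine ⟨f, hf, Subtype.ext ?_⟩
    have h1 := hom_eval₂ f φ.toRingHom B.val.toRingHom b
    exact h1.trans hfb
  obtain ⟨q, hq, hqp⟩ : ∃ q : Ideal B, q.IsPrime ∧ q.comap φ.toRingHom = p := by
    let _ : Algebra A B := φ.toRingHom.toAlgebra
    have : Algebra.IsIntegral A B := ⟨hφint⟩
    obtain ⟨q, -, h1, h2⟩ := Ideal.exists_ideal_over_prime_of_isIntegral (S := B) p ⊥ (by
      intro a ha
      have h3 : φ a = 0 := ha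
      have h4 : a = 0 := hφi (by rw [h3, map_zero])
      rw [h4]
      exact p.zero_mem)
    exact ⟨q, h1, h2⟩
  have hmem : ∀ a, φ a ∈ q ↔ a ∈ p := fun a => by rw [← hqp]; rfl
  let j : (A ⧸ p) →ₐ[ℂ] (B ⧸ q) := Ideal.Quotient.liftₐ p ((Ideal.Quotient.mkₐ ℂ q).comp φ)
    (fun a ha => Ideal.Quotient.eq_zero_iff_mem.2 ((hmem a).2 ha))
  have hj : ∀ a, j (Ideal.Quotient.mk p a) = Ideal.Quotient.mk q (φ a) := fun a => rfl
  have hji : Function.Injective j := by
    rw [injective_iff_map_eq_zero]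
    intro z hz
    obtain ⟨a, rfl⟩ := Ideal.Quotient.mk_surjective z
    rw [hj, Ideal.Quotient.eq_zero_iff_mem, hmem] at hz
    exact Ideal.Quotient.eq_zero_iff_mem.2 hz
  let ι : (A ⧸ p) →ₐ[ℂ] FractionRing (A ⧸ p) :=
    IsScalarTower.toAlgHom ℂ (A ⧸ p) (FractionRing (A ⧸ p))
  let ι' : (B ⧸ q) →ₐ[ℂ] FractionRing (B ⧸ q) :=
    IsScalarTower.toAlgHom ℂ (B ⧸ q) (FractionRing (B ⧸ q))
  have hι' : Function.Injective ι' := IsFractionRing.injective (B ⧸ q) (FractionRing (B ⧸ q))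
  obtain ⟨θ, hθ⟩ := ext_frac ι (IsFractionRing.injective (A ⧸ p) (FractionRing (A ⧸ p)))
    (fun z => by
      obtain ⟨x, y, -, hxy⟩ := IsFractionRing.div_surjective (A := A ⧸ p) z
      exact ⟨x, y, hxy.symm⟩) (ι'.comp j) (hι'.comp hji)
  let π : B →ₐ[ℂ] FractionRing (B ⧸ q) := ι'.comp (Ideal.Quotient.mkₐ ℂ q)
  let ρ : A →ₐ[ℂ] FractionRing (A ⧸ p) := ι.comp (Ideal.Quotient.mkₐ ℂ p)
  have hπρ : ∀ a, π (φ a) = θ (ρ a) := fun a => (hθ (Ideal.Quotient.mk p a)).symm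
  have hs : ∀ z : FractionRing (B ⧸ q), ∃ a b : B, π b ≠ 0 ∧ z = π a / π b := by
    intro z
    obtain ⟨x, y, hy, hxy⟩ := IsFractionRing.div_surjective (A := B ⧸ q) z
    obtain ⟨a, rfl⟩ := Ideal.Quotient.mk_surjective x
    obtain ⟨b, rfl⟩ := Ideal.Quotient.mk_surjective y
    refine ⟨a, b, fun h0 => ?_, hxy.symm⟩
    have h1 : Ideal.Quotient.mk q b = 0 := hι' (by rw [map_zero]; exact h0)
    exact nonZeroDivisors.ne_zero hy h1
  let _ : Algebra (FractionRing (A ⧸ p)) (FractionRing (B ⧸ q)) := θ.toRingHom.toAlgebra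
  have ht : IsScalarTower ℂ (FractionRing (A ⧸ p)) (FractionRing (B ⧸ q)) :=
    IsScalarTower.of_algebraMap_eq fun c => (θ.commutes c).symm
  have hcm : ∀ (a : L) (ha : a ∈ A) (hb : algebraMap L K a ∈ B), π ⟨algebraMap L K a, hb⟩ =
      algebraMap (FractionRing (A ⧸ p)) (FractionRing (B ⧸ q)) (ρ ⟨a, ha⟩) :=
    fun a ha hb => hπρ ⟨a, ha⟩
  obtain ⟨r, σ, ε, h1, h2, h3, h4⟩ := core F R hRF hFR B hRB hB π hs
  have hint' : ∀ b : B, IsIntegral (FractionRing (A ⧸ p)) (π b) := by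
    intro b
    obtain ⟨f, hf, hfb⟩ := hφint b
    refine ⟨f.map ρ.toRingHom, hf.map _, ?_⟩
    rw [eval₂_map]
    have h5 := hom_eval₂ f φ.toRingHom π.toRingHom b
    rw [hfb, map_zero] at h5
    have h6 : (algebraMap (FractionRing (A ⧸ p)) (FractionRing (B ⧸ q))).comp ρ.toRingHom =
        π.toRingHom.comp φ.toRingHom := RingHom.ext fun a => (hπρ a).symm
    rw [h6]
    exact h5.symm
  have halg : Algebra.IsAlgebraic (FractionRing (A ⧸ p)) (FractionRing (B ⧸ q)) := ⟨fun z => by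
    obtain ⟨a, b, hb, rfl⟩ := hs z
    rw [div_eq_mul_inv]
    exact (hint' a).isAlgebraic.mul (hint' b).isAlgebraic.inv⟩
  have hess : Algebra.EssFiniteType (FractionRing (A ⧸ p)) (FractionRing (B ⧸ q)) :=
    Algebra.EssFiniteType.of_comp ℂ (FractionRing (A ⧸ p)) (FractionRing (B ⧸ q))
  have hfin : FiniteDimensional (FractionRing (A ⧸ p)) (FractionRing (B ⧸ q)) :=
    Algebra.finite_of_essFiniteType_of_isAlgebraic
  refine ⟨r, FractionRing (B ⧸ q), inferInstance, inferInstance, inferInstance, ht, π, σ, ε,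
    h1, h2, ?_, hfin, ?_, h3, hcm, h4⟩
  · have h5 := _root_.trdeg_add_eq ℂ (FractionRing (A ⧸ p)) (A := FractionRing (B ⧸ q))
    rw [_root_.trdeg_eq_zero_iff.2 halg, add_zero, h2] at h5
    exact h5
  · exact hDEG L K A hA B hAB hint (FractionRing (A ⧸ p)) (FractionRing (B ⧸ q)) ρ π hcm hs

end Pool.Agent.N348.LG.STR
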